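import Mathlib

set_option autoImplicit false

open Filter Topology

namespace Pool.Agent.Q220.Sadp

variable {𝕜 : Type*} [RCLike 𝕜] {X : Type*} [NormedAddCommGroup X] [NormedSpace 𝕜 X]

/-- If every unit vector `x` can be almost doubled by `θ • y` with `y ∈ W k`, for each of countably
many subsets `W k` of the unit ball, then some functional `f` of norm at most one satisfies
`sup_{W k} ‖f‖ ≥ 1` for every `k`. -/
theorem exists_generic (W : ℕ → Set X) (hW1 : ∀ k, ∀ y ∈ W k, ‖y‖ ≤ 1) (x₀ : X) (hx₀ : ‖x₀‖ = 1)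
    (hW : ∀ k (x : X), ‖x‖ = 1 → ∀ ε : ℝ, 0 < ε →
      ∃ y ∈ W k, ∃ θ : 𝕜, ‖θ‖ = 1 ∧ 2 - ε < ‖x + θ • y‖) :
    ∃ f : X →L[𝕜] 𝕜, ‖f‖ ≤ 1 ∧ ∀ k, ∀ ε : ℝ, 0 < ε → ∃ y ∈ W k, 1 - ε < ‖f y‖ := by
  classical
  let S : Type _ := {x : X // ‖x‖ = 1}
  have hstep : ∀ (n : ℕ) (x : S), ∃ p : X × 𝕜, p.1 ∈ W (Nat.unpair n).1 ∧ ‖p.2‖ = 1 ∧
      2 - (1/4:ℝ)^n/2 < ‖x.1 + p.2 • p.1‖ := by
    intro n x
    obtain ⟨y, hy, θ, hθ, h⟩ := hW (Nat.unpair n).1 x.1 x.2 ((1/4:ℝ)^n/2) (by positivity)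
    exact ⟨(y, θ), hy, hθ, h⟩
  choose P hP1 hP2 hP3 using hstep
  have hpos : ∀ (n : ℕ) (x : S), 0 < ‖x.1 + (P n x).2 • (P n x).1‖ := by
    intro n x
    have h1 := hP3 n x
    have h2 : (1/4:ℝ)^n ≤ 1 := pow_le_one₀ (by norm_num) (by norm_num)
    linarith
  let nxt : ∀ (n : ℕ), S → S := fun n x =>
    ⟨((‖x.1 + (P n x).2 • (P n x).1‖⁻¹ : ℝ) : 𝕜) • (x.1 + (P n x).2 • (P n x).1), by
      rw [norm_smul, RCLike.norm_ofReal, abs_of_nonneg (inv_nonneg.2 (norm_nonneg _)),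
        inv_mul_cancel₀ (hpos n x).ne']⟩
  let xs : ℕ → S := fun n => Nat.rec ⟨x₀, hx₀⟩ (fun n x => nxt n x) n
  have hxs : ∀ n, xs (n+1) = nxt n (xs n) := fun n => rfl
  -- the key inequality
  have key : ∀ (f : X →L[𝕜] 𝕜), ‖f‖ ≤ 1 → ∀ n,
      1 - (1/4:ℝ)^(n+1) ≤ RCLike.re (f (xs (n+1)).1) →
      1 - (1/4:ℝ)^n ≤ RCLike.re (f (xs n).1) ∧
      1 - (1/4:ℝ)^n ≤ ‖f (P n (xs n)).1‖ := by
    intro f hf n h
    set x := (xs n).1 with hx
    set y := (P n (xs n)).1 with hy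
    set θ := (P n (xs n)).2 with hθ
    set s := ‖x + θ • y‖ with hs
    have hs1 : 2 - (1/4:ℝ)^n/2 < s := hP3 n (xs n)
    have hspos : 0 < s := hpos n (xs n)
    have h1 : (xs (n+1)).1 = ((s⁻¹ : ℝ) : 𝕜) • (x + θ • y) := by rw [hxs]
    rw [h1, map_smul, smul_eq_mul, RCLike.re_ofReal_mul, map_add, map_add] at h
    have h2 : s * (1 - (1/4:ℝ)^(n+1)) ≤ RCLike.re (f x) + RCLike.re (f (θ • y)) := by
      have := mul_le_mul_of_nonneg_left h hspos.le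
      rwa [← mul_assoc, mul_inv_cancel₀ hspos.ne', one_mul] at this
    have h3 : (1/4:ℝ)^n ≤ 1 := pow_le_one₀ (by norm_num) (by norm_num)
    have h4 : (0:ℝ) < (1/4:ℝ)^n := by positivity
    have h5 : (1/4:ℝ)^(n+1) = (1/4:ℝ)^n/4 := by rw [pow_succ]; ring
    have h6 : (2 - (1/4:ℝ)^n/2) * (1 - (1/4:ℝ)^(n+1)) ≤ s * (1 - (1/4:ℝ)^(n+1)) := by
      apply mul_le_mul_of_nonneg_right hs1.le
      rw [h5]; linarith
    have h7 : 2 - (1/4:ℝ)^n ≤ (2 - (1/4:ℝ)^n/2) * (1 - (1/4:ℝ)^(n+1)) := by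
      rw [h5]; nlinarith
    have h8 : RCLike.re (f x) ≤ 1 := by
      refine (RCLike.re_le_norm _).trans ((f.le_opNorm x).trans ?_)
      rw [hx, (xs n).2, mul_one]; exact hf
    have hy1 : ‖y‖ ≤ 1 := hW1 _ _ (hP1 n (xs n))
    have hθ1 : ‖θ‖ = 1 := hP2 n (xs n)
    have h9 : RCLike.re (f (θ • y)) ≤ ‖f y‖ := by
      refine (RCLike.re_le_norm _).trans ?_
      rw [map_smul, norm_smul, hθ1, one_mul]
    have h10 : ‖f y‖ ≤ 1 := by
      refine (f.le_opNorm y).trans ?_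
      calc ‖f‖ * ‖y‖ ≤ 1 * 1 := mul_le_mul hf hy1 (norm_nonneg _) zero_le_one
        _ = 1 := one_mul 1
    constructor <;> linarith
  -- compactness
  let F : ℕ → Set (WeakDual 𝕜 X) := fun m =>
    (WeakDual.toStrongDual ⁻¹' Metric.closedBall (0 : StrongDual 𝕜 X) 1) ∩
      {f | 1 - (1/4:ℝ)^m ≤ RCLike.re (f (xs m).1)}
  have hFclosed : ∀ m, IsClosed (F m) := by
    intro m
    apply IsClosed.inter
    · exact WeakDual.isClosed_closedBall _ _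
    · apply isClosed_le continuous_const
      exact RCLike.continuous_re.comp (WeakDual.eval_continuous _)
  have hFcomp : IsCompact (F 0) :=
    (WeakDual.isCompact_closedBall (0 : StrongDual 𝕜 X) 1).inter_right
      (isClosed_le continuous_const (RCLike.continuous_re.comp (WeakDual.eval_continuous _)))
  have hFsub : ∀ m, F (m+1) ⊆ F m := by
    rintro m f ⟨hf1, hf2⟩
    refine ⟨hf1, ?_⟩
    have h1 : ‖(WeakDual.toStrongDual f : StrongDual 𝕜 X)‖ ≤ 1 := by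
      simpa [Metric.mem_closedBall, dist_zero_right] using hf1
    exact (key (WeakDual.toStrongDual f) h1 m hf2).1
  have hFne : ∀ m, (F m).Nonempty := by
    intro m
    obtain ⟨g, hg1, hg2⟩ := exists_dual_vector 𝕜 (xs m).1 (by rw [(xs m).2]; norm_num)
    refine ⟨StrongDual.toWeakDual g, ?_, ?_⟩
    · simp [Metric.mem_closedBall, dist_zero_right, hg1]
    · show 1 - (1/4:ℝ)^m ≤ RCLike.re (g (xs m).1)
      rw [hg2, (xs m).2]
      simp
  obtain ⟨f, hf⟩ := IsCompact.nonempty_iInter_of_sequence_nonempty_isCompact_isClosed F hFsub hFne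
    hFcomp hFclosed
  rw [Set.mem_iInter] at hf
  have hf1 : ‖(WeakDual.toStrongDual f : StrongDual 𝕜 X)‖ ≤ 1 := by
    simpa [Metric.mem_closedBall, dist_zero_right] using (hf 0).1
  refine ⟨WeakDual.toStrongDual f, hf1, ?_⟩
  intro k ε hε
  obtain ⟨N, hN⟩ := exists_pow_lt_of_lt_one hε (by norm_num : (1/4:ℝ) < 1)
  let n := Nat.pair k N
  have hn : N ≤ n := Nat.right_le_pair k N
  have h1 := (key (WeakDual.toStrongDual f) hf1 n (hf (n+1)).2).2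
  refine ⟨(P n (xs n)).1, ?_, ?_⟩
  · have := hP1 n (xs n)
    have h2 : (Nat.unpair n).1 = k := by simp [n]
    rwa [h2] at this
  · have h2 : (1/4:ℝ)^n ≤ (1/4:ℝ)^N := pow_le_pow_of_le_one (by norm_num) (by norm_num) hn
    linarith

end Pool.Agent.Q220.Sadp
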